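import Mathlib

/-!
# MP_af18c6_pr : two walkers on complete graphs, stationary avoidance couplings of minimum entropy

The order of the moves is `X_0, Y_0, X_1, Y_1, ...`. For `p = Y_{t-1}` and `r' = X_{t+1}` we choose
a bijection `τ p r'` from the possible values of `X_t` to the possible values of `Y_t` that has no
fixed point, and put `Y_t = τ p r' X_t`. Then `(Y_{-1}, X_0)` uniform on distinct pairs and `X`
a simple random walk give a stationary process in which `Y` is a simple random walk too.
-/

open Finset Filter Topology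

namespace Pool.Agent.Results.MP_af18c6_pr.TwoWalkers

/-- Law of the simple random walk with uniform start: probability of the window `xs`.
`A` is the adjacency (loops allowed), `d` the degree, `n` the number of vertices. -/
noncomputable def srw {n : ℕ} (A : Fin n → Fin n → Bool) (d : ℕ) : List (Fin n) → ℝ
  | [] => 1
  | [_] => 1 / n
  | x :: x' :: xs => (if A x x' = true then (1 : ℝ) / d else 0) * srw A d (x' :: xs)

/-- A stationary avoidance coupling of two walkers of minimum entropy.
`law l` is the probability that `(X_0,Y_0),...,(X_{T-1},Y_{T-1})` is the list `l`; the walker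
`X` moves first. `entropy`: the Shannon entropy of the first `T` pairs divided by `T` tends to
`log d`, the entropy rate of one walker. -/
structure MinEntropyAvoidance {n : ℕ} (A : Fin n → Fin n → Bool) (d : ℕ)
    (law : List (Fin n × Fin n) → ℝ) : Prop where
  nonneg : ∀ l, 0 ≤ law l
  total : law [] = 1
  consistent : ∀ l, ∑ o, law (l ++ [o]) = law l
  stationary : ∀ l, ∑ o, law (o :: l) = law l
  first : ∀ (T : ℕ) (x : Fin T → Fin n),
    ∑ y : Fin T → Fin n, law (List.ofFn fun i => (x i, y i)) = srw A d (List.ofFn x)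
  second : ∀ (T : ℕ) (y : Fin T → Fin n),
    ∑ x : Fin T → Fin n, law (List.ofFn fun i => (x i, y i)) = srw A d (List.ofFn y)
  avoid : ∀ l, law l ≠ 0 → (∀ o ∈ l, o.1 ≠ o.2) ∧ l.IsChain (fun o o' => o'.1 ≠ o.2)
  entropy : Tendsto (fun T : ℕ =>
    (∑ w : Fin T → Fin n × Fin n, Real.negMulLog (law (List.ofFn w))) / T) atTop
      (𝓝 (Real.log d))

section
variable {n : ℕ}

/-- An avoidance coupling of two walkers, not necessarily stationary, `law l` as above. -/
structure Avoidance {n : ℕ} (A : Fin n → Fin n → Bool) (d : ℕ)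
    (law : List (Fin n × Fin n) → ℝ) : Prop where
  nonneg : ∀ l, 0 ≤ law l
  total : law [] = 1
  consistent : ∀ l, ∑ o, law (l ++ [o]) = law l
  first : ∀ (T : ℕ) (x : Fin T → Fin n),
    ∑ y : Fin T → Fin n, law (List.ofFn fun i => (x i, y i)) = srw A d (List.ofFn x)
  second : ∀ (T : ℕ) (y : Fin T → Fin n),
    ∑ x : Fin T → Fin n, law (List.ofFn fun i => (x i, y i)) = srw A d (List.ofFn y)
  avoid : ∀ l, law l ≠ 0 → (∀ o ∈ l, o.1 ≠ o.2) ∧ l.IsChain (fun o o' => o'.1 ≠ o.2)

/-- continuation count -/
def M (A : Fin n → Fin n → Bool) (τ : Fin n → Fin n → Fin n → Fin n) :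
    List (Fin n × Fin n) → Fin n → Fin n → ℕ
  | [], _, _ => 1
  | (o :: l), q, r => ∑ r', if (o.1 = r ∧ A r r' = true ∧ τ q r' r = o.2) then M A τ l o.2 r' else 0

/-- the hypotheses on the data -/
structure Good (A : Fin n → Fin n → Bool) (d : ℕ) (τ : Fin n → Fin n → Fin n → Fin n) : Prop where
  symm : ∀ a b, A a b = A b a
  dpos : 0 < d
  deg : ∀ a, (univ.filter (fun b => A a b = true)).card = d
  maps : ∀ q r' r, r ≠ q → A r r' = true → τ q r' r ≠ r' ∧ A q (τ q r' r) = true ∧ τ q r' r ≠ r
  inj : ∀ q r' r s, r ≠ q → A r r' = true → s ≠ q → A s r' = true → τ q r' r = τ q r' s → r = s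
  surj : ∀ q r' y, y ≠ r' → A q y = true → ∃ r, r ≠ q ∧ A r r' = true ∧ τ q r' r = y

variable {A : Fin n → Fin n → Bool} {d : ℕ} {τ : Fin n → Fin n → Fin n → Fin n}

def S0 (A : Fin n → Fin n → Bool) (τ : Fin n → Fin n → Fin n → Fin n)
    (l : List (Fin n × Fin n)) : ℕ :=
  ∑ q, ∑ r, if r ≠ q then M A τ l q r else 0

theorem exchange (h : Good A d τ) (q r' : Fin n) (F : Fin n → ℕ) :
    (∑ r, if (r ≠ q ∧ A r r' = true) then F (τ q r' r) else 0)
      = ∑ y, if (y ≠ r' ∧ A q y = true) then F y else 0 := by
  rw [← Finset.sum_filter, ← Finset.sum_filter]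
  refine Finset.sum_bij (fun r _ => τ q r' r) ?_ ?_ ?_ ?_
  · intro r hr
    simp only [mem_filter, mem_univ, true_and] at hr ⊢
    exact ⟨(h.maps q r' r hr.1 hr.2).1, (h.maps q r' r hr.1 hr.2).2.1⟩
  · intro r hr s hs e
    simp only [mem_filter, mem_univ, true_and] at hr hs
    exact h.inj q r' r s hr.1 hr.2 hs.1 hs.2 e
  · intro y hy
    simp only [mem_filter, mem_univ, true_and] at hy
    obtain ⟨r, h1, h2, h3⟩ := h.surj q r' y hy.1 hy.2
    exact ⟨r, by simp [h1, h2], h3⟩
  · intro r hr
    rfl

theorem S0_cons_sum (h : Good A d τ) (l : List (Fin n × Fin n)) :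
    ∑ o, S0 A τ (o :: l) = d * S0 A τ l := by
  have e1 : ∀ q r : Fin n, (∑ o : Fin n × Fin n, if r ≠ q then M A τ (o :: l) q r else 0)
      = ∑ r', if (r ≠ q ∧ A r r' = true) then M A τ l (τ q r' r) r' else 0 := by
    intro q r
    by_cases hq : r ≠ q
    · simp only [hq, if_true, true_and, ne_eq, not_false_eq_true]
      simp only [M]
      rw [Finset.sum_comm]
      refine Finset.sum_congr rfl fun r' _ => ?_
      by_cases hA : A r r' = true
      · rw [Fintype.sum_eq_single (r, τ q r' r)]
        · simp [hA]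
        · rintro ⟨a, b⟩ hab
          rw [if_neg]
          rintro ⟨h1, -, h3⟩
          exact hab (by simp only at h1 h3; rw [h1, h3])
      · simp [hA]
    · simp only [hq, if_false, false_and, Finset.sum_const_zero]
  unfold S0
  rw [Finset.sum_comm]
  have e2 : ∀ q : Fin n, (∑ o : Fin n × Fin n, ∑ r, if r ≠ q then M A τ (o :: l) q r else 0)
      = ∑ r', ∑ y, if (y ≠ r' ∧ A q y = true) then M A τ l y r' else 0 := by
    intro q
    rw [Finset.sum_comm]
    simp_rw [e1]
    rw [Finset.sum_comm]
    refine Finset.sum_congr rfl fun r' _ => ?_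
    exact exchange h q r' (fun y => M A τ l y r')
  simp_rw [e2]
  rw [Finset.sum_comm]
  have e3 : ∀ r' : Fin n, (∑ q, ∑ y, if (y ≠ r' ∧ A q y = true) then M A τ l y r' else 0)
      = ∑ y, d * (if r' ≠ y then M A τ l y r' else 0) := by
    intro r'
    rw [Finset.sum_comm]
    refine Finset.sum_congr rfl fun y _ => ?_
    by_cases hy : y = r'
    · simp [hy]
    · have : r' ≠ y := fun e => hy e.symm
      simp only [ne_eq, hy, not_false_eq_true, true_and, this, if_true]
      rw [← Finset.sum_filter, Finset.sum_const, smul_eq_mul]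
      congr 1
      rw [← h.deg y]
      congr 1
      ext q
      simp [h.symm q y]
  simp_rw [e3]
  rw [Finset.sum_comm, Finset.mul_sum]
  simp_rw [Finset.mul_sum]

theorem M_snoc (h : Good A d τ) (l : List (Fin n × Fin n)) (q r : Fin n) :
    ∑ o, M A τ (l ++ [o]) q r = d * M A τ l q r := by
  induction l generalizing q r with
  | nil =>
    simp only [List.nil_append, M]
    rw [Finset.sum_comm, mul_one, ← h.deg r, Finset.card_filter]
    refine Finset.sum_congr rfl fun r' _ => ?_
    by_cases hA : A r r' = true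
    · rw [Fintype.sum_eq_single (r, τ q r' r)]
      · simp [hA]
      · rintro ⟨a, b⟩ hab
        rw [if_neg]
        rintro ⟨h1, -, h3⟩
        exact hab (by simp only at h1 h3; rw [h1, h3])
    · simp [hA]
  | cons a l ih =>
    simp only [List.cons_append, M]
    rw [Finset.sum_comm, Finset.mul_sum]
    refine Finset.sum_congr rfl fun r' _ => ?_
    by_cases hA : a.1 = r ∧ A r r' = true ∧ τ q r' r = a.2
    · simp only [hA, and_self, if_true]
      simpa using ih _ _
    · simp [hA]

theorem S0_snoc (h : Good A d τ) (l : List (Fin n × Fin n)) :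
    ∑ o, S0 A τ (l ++ [o]) = d * S0 A τ l := by
  unfold S0
  rw [Finset.sum_comm, Finset.mul_sum]
  refine Finset.sum_congr rfl fun q _ => ?_
  rw [Finset.sum_comm, Finset.mul_sum]
  refine Finset.sum_congr rfl fun r _ => ?_
  by_cases hq : r = q
  · simp [hq]
  · simpa [hq] using M_snoc h l q r

theorem S0_nil : S0 A τ [] = n * (n - 1) := by
  unfold S0
  simp only [M]
  have : ∀ q : Fin n, (∑ r : Fin n, if r ≠ q then 1 else 0) = n - 1 := by
    intro q
    rw [← Finset.card_filter]
    have : (univ.filter (fun r : Fin n => r ≠ q)) = univ.erase q := by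
      ext r; simp
    rw [this, Finset.card_erase_of_mem (mem_univ q)]
    simp
  rw [Finset.sum_congr rfl fun q _ => this q]
  simp

/-- the law of the coupling -/
noncomputable def law (A : Fin n → Fin n → Bool) (d : ℕ) (τ : Fin n → Fin n → Fin n → Fin n)
    (l : List (Fin n × Fin n)) : ℝ :=
  (S0 A τ l : ℝ) / (n * (n - 1) * (d : ℝ) ^ l.length)

theorem law_nonneg (hn : 2 ≤ n) (l : List (Fin n × Fin n)) : 0 ≤ law A d τ l := by
  unfold law
  have h2 : (2 : ℝ) ≤ n := by exact_mod_cast hn
  have : (0 : ℝ) ≤ n * (n - 1) := by nlinarith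
  positivity

theorem law_nil (hn : 2 ≤ n) : law A d τ [] = 1 := by
  unfold law
  rw [S0_nil]
  have h2 : (2 : ℝ) ≤ n := by exact_mod_cast hn
  have h3 : ((n * (n - 1) : ℕ) : ℝ) = n * (n - 1) := by
    rw [Nat.cast_mul, Nat.cast_sub (by omega)]; simp
  rw [h3]
  have : (n : ℝ) * (n - 1) ≠ 0 := by nlinarith
  simp only [List.length_nil, pow_zero, mul_one]
  exact div_self this

theorem law_cons (h : Good A d τ) (l : List (Fin n × Fin n)) :
    ∑ o, law A d τ (o :: l) = law A d τ l := by
  unfold law
  simp only [List.length_cons]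
  rw [← Finset.sum_div, ← Nat.cast_sum, S0_cons_sum h l]
  have hd : (d : ℝ) ≠ 0 := by exact_mod_cast h.dpos.ne'
  push_cast
  rw [pow_succ, ← mul_assoc, mul_comm (d : ℝ) (S0 A τ l : ℝ)]
  exact mul_div_mul_right _ _ hd

theorem law_snoc (h : Good A d τ) (l : List (Fin n × Fin n)) :
    ∑ o, law A d τ (l ++ [o]) = law A d τ l := by
  unfold law
  simp only [List.length_append, List.length_cons, List.length_nil, zero_add]
  rw [← Finset.sum_div, ← Nat.cast_sum, S0_snoc h l]
  have hd : (d : ℝ) ≠ 0 := by exact_mod_cast h.dpos.ne'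
  push_cast
  rw [pow_succ, ← mul_assoc, mul_comm (d : ℝ) (S0 A τ l : ℝ)]
  exact mul_div_mul_right _ _ hd

theorem M_avoid (h : Good A d τ) (l : List (Fin n × Fin n)) (q r : Fin n) (hr : r ≠ q)
    (hM : M A τ l q r ≠ 0) :
    (∀ o ∈ l, o.1 ≠ o.2) ∧ l.IsChain (fun o o' => o'.1 ≠ o.2) ∧
      (∀ o l', l = o :: l' → o.1 = r) := by
  induction l generalizing q r with
  | nil => simp
  | cons a l ih =>
    simp only [M] at hM
    obtain ⟨r', -, hr'⟩ := Finset.exists_ne_zero_of_sum_ne_zero hM
    by_cases hc : a.1 = r ∧ A r r' = true ∧ τ q r' r = a.2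
    · rw [if_pos hc] at hr'
      obtain ⟨c1, c2, c3⟩ := hc
      obtain ⟨m1, m2, m3⟩ := h.maps q r' r hr c2
      rw [c3] at m1 m3
      obtain ⟨i1, i2, i3⟩ := ih a.2 r' (fun e => m1 e.symm) hr'
      refine ⟨?_, ?_, ?_⟩
      · intro o ho
        rcases List.mem_cons.1 ho with rfl | ho
        · rw [c1]; exact fun e => m3 e.symm
        · exact i1 o ho
      · cases l with
        | nil => simp
        | cons b l =>
          rw [List.isChain_cons_cons]
          refine ⟨?_, i2⟩
          rw [i3 b l rfl]
          exact fun e => m1 e.symm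
      · rintro o l' e
        injection e with e1 e2
        rw [← e1]; exact c1
    · rw [if_neg hc] at hr'
      exact absurd rfl hr'

theorem law_avoid (h : Good A d τ) (l : List (Fin n × Fin n)) (hl : law A d τ l ≠ 0) :
    (∀ o ∈ l, o.1 ≠ o.2) ∧ l.IsChain (fun o o' => o'.1 ≠ o.2) := by
  have h0 : S0 A τ l ≠ 0 := by
    intro e
    apply hl
    unfold law
    rw [e]; simp
  unfold S0 at h0
  obtain ⟨q, -, hq⟩ := Finset.exists_ne_zero_of_sum_ne_zero h0
  obtain ⟨r, -, hr⟩ := Finset.exists_ne_zero_of_sum_ne_zero hq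
  by_cases hc : r ≠ q
  · rw [if_pos hc] at hr
    obtain ⟨a, b, -⟩ := M_avoid h l q r hc hr
    exact ⟨a, b⟩
  · rw [if_neg hc] at hr
    exact absurd rfl hr

/-! ### marginal of the first walker -/

def GX (A : Fin n → Fin n → Bool) : List (Fin n) → Fin n → ℕ
  | [], _ => 1
  | (x :: xs), r => if x = r then ∑ r', (if A r r' = true then GX A xs r' else 0) else 0

theorem sum_fin_cons {T : ℕ} (F : (Fin (T + 1) → Fin n) → ℕ) :
    ∑ y : Fin (T + 1) → Fin n, F y = ∑ b : Fin n, ∑ y : Fin T → Fin n, F (Fin.cons b y) := by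
  rw [← Fintype.sum_prod_type']
  refine (Fintype.sum_equiv (Fin.consEquiv (fun _ : Fin (T + 1) => Fin n)) _ _ ?_).symm
  rintro ⟨b, y⟩
  rfl

theorem sum_first (T : ℕ) (x : Fin T → Fin n) (q r : Fin n) :
    ∑ y : Fin T → Fin n, M A τ (List.ofFn fun i => (x i, y i)) q r = GX A (List.ofFn x) r := by
  induction T generalizing q r with
  | zero => simp [M, GX]
  | succ T ih =>
    rw [sum_fin_cons]
    simp only [List.ofFn_succ, Fin.cons_zero, Fin.cons_succ, M, GX]
    have : ∀ b : Fin n, (∑ y : Fin T → Fin n, ∑ r', if (x 0 = r ∧ A r r' = true ∧ τ q r' r = b)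
        then M A τ (List.ofFn fun i => (x i.succ, y i)) b r' else 0)
        = ∑ r', if (x 0 = r ∧ A r r' = true ∧ τ q r' r = b) then
          GX A (List.ofFn fun i => x i.succ) r' else 0 := by
      intro b
      rw [Finset.sum_comm]
      refine Finset.sum_congr rfl fun r' _ => ?_
      by_cases hc : x 0 = r ∧ A r r' = true ∧ τ q r' r = b
      · simp only [if_pos hc]
        exact ih _ _ _
      · simp only [if_neg hc, Finset.sum_const_zero]
    simp_rw [this]
    rw [Finset.sum_comm]
    by_cases h0 : x 0 = r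
    · simp only [h0, true_and, if_true]
      refine Finset.sum_congr rfl fun r' _ => ?_
      by_cases hA : A r r' = true
      · simp [hA]
      · simp [hA]
    · simp [h0]

theorem GX_sum_cons (x : Fin n) (xs : List (Fin n)) :
    ∑ r, GX A (x :: xs) r = ∑ r', if A x r' = true then GX A xs r' else 0 := by
  simp only [GX]
  rw [Fintype.sum_eq_single x]
  · simp
  · intro r hr
    rw [if_neg (fun e => hr e.symm)]

theorem GX_sum (h : Good A d τ) (xs : List (Fin n)) :
    ((∑ r, GX A xs r : ℕ) : ℝ) = srw A d xs * n * (d : ℝ) ^ xs.length := by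
  have hd : (d : ℝ) ≠ 0 := by exact_mod_cast h.dpos.ne'
  induction xs with
  | nil => simp [GX, srw]
  | cons x xs ih =>
    rw [GX_sum_cons]
    cases xs with
    | nil =>
      have hn : (n : ℝ) ≠ 0 := by
        have := x.pos
        exact_mod_cast this.ne'
      simp only [GX, srw, List.length_cons, List.length_nil, zero_add, pow_one]
      rw [← Finset.card_filter, h.deg x]
      field_simp
    | cons x' xs =>
      have e : (∑ r', if A x r' = true then GX A (x' :: xs) r' else 0)
          = if A x x' = true then ∑ r, GX A (x' :: xs) r else 0 := by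
        rw [Fintype.sum_eq_single x']
        · by_cases hA : A x x' = true
          · simp only [hA, if_true]
            rw [Fintype.sum_eq_single x']
            intro r hr
            simp only [GX]
            rw [if_neg (fun e => hr e.symm)]
          · simp [hA]
        · intro r hr
          simp only [GX]
          rw [if_neg (fun e : x' = r => hr e.symm)]
          simp
      rw [e]
      by_cases hA : A x x' = true
      · rw [if_pos hA, ih]
        simp only [srw, hA, if_true, List.length_cons]
        field_simp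
        try ring
      · rw [if_neg hA]
        simp [srw, hA]

theorem sum_ne (F : Fin n → ℕ) :
    (∑ q : Fin n, ∑ r, if r ≠ q then F r else 0) = (n - 1) * ∑ r, F r := by
  rw [Finset.sum_comm, Finset.mul_sum]
  refine Finset.sum_congr rfl fun r _ => ?_
  rw [← Finset.sum_filter, Finset.sum_const, smul_eq_mul]
  congr 1
  have : (univ.filter (fun q : Fin n => r ≠ q)) = univ.erase r := by
    ext q; simp [eq_comm]
  rw [this, Finset.card_erase_of_mem (mem_univ r)]
  simp

theorem law_first (h : Good A d τ) (hn : 2 ≤ n) (T : ℕ) (x : Fin T → Fin n) :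
    ∑ y : Fin T → Fin n, law A d τ (List.ofFn fun i => (x i, y i)) = srw A d (List.ofFn x) := by
  have hd : (d : ℝ) ≠ 0 := by exact_mod_cast h.dpos.ne'
  have h2 : (2 : ℝ) ≤ n := by exact_mod_cast hn
  unfold law
  simp only [List.length_ofFn]
  rw [← Finset.sum_div, ← Nat.cast_sum]
  have e : ∑ y : Fin T → Fin n, S0 A τ (List.ofFn fun i => (x i, y i))
      = (n - 1) * ∑ r, GX A (List.ofFn x) r := by
    rw [← sum_ne]
    unfold S0
    rw [Finset.sum_comm]
    refine Finset.sum_congr rfl fun q _ => ?_
    rw [Finset.sum_comm]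
    refine Finset.sum_congr rfl fun r _ => ?_
    by_cases hq : r = q
    · simp [hq]
    · simp only [ne_eq, hq, not_false_eq_true, if_true]
      exact sum_first T x q r
  rw [e, Nat.cast_mul, GX_sum h, Nat.cast_sub (by omega)]
  simp only [List.length_ofFn, Nat.cast_one]
  have h1 : (n : ℝ) - 1 ≠ 0 := by linarith
  have h0 : (n : ℝ) ≠ 0 := by linarith
  field_simp

/-! ### marginal of the second walker -/

def GY (A : Fin n → Fin n → Bool) (τ : Fin n → Fin n → Fin n → Fin n) :
    List (Fin n) → Fin n → Fin n → ℕ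
  | [], _, _ => 1
  | (y :: ys), q, r => ∑ r', if (A r r' = true ∧ τ q r' r = y) then GY A τ ys y r' else 0

theorem sum_second (T : ℕ) (y : Fin T → Fin n) (q r : Fin n) :
    ∑ x : Fin T → Fin n, M A τ (List.ofFn fun i => (x i, y i)) q r
      = GY A τ (List.ofFn y) q r := by
  induction T generalizing q r with
  | zero => simp [M, GY]
  | succ T ih =>
    rw [sum_fin_cons]
    simp only [List.ofFn_succ, Fin.cons_zero, Fin.cons_succ, M, GY]
    have : ∀ b : Fin n, (∑ x : Fin T → Fin n, ∑ r', if (b = r ∧ A r r' = true ∧ τ q r' r = y 0)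
        then M A τ (List.ofFn fun i => (x i, y i.succ)) (y 0) r' else 0)
        = ∑ r', if (b = r ∧ A r r' = true ∧ τ q r' r = y 0) then
          GY A τ (List.ofFn fun i => y i.succ) (y 0) r' else 0 := by
      intro b
      rw [Finset.sum_comm]
      refine Finset.sum_congr rfl fun r' _ => ?_
      by_cases hc : b = r ∧ A r r' = true ∧ τ q r' r = y 0
      · simp only [if_pos hc]
        exact ih _ _ _
      · simp only [if_neg hc, Finset.sum_const_zero]
    simp_rw [this]
    rw [Fintype.sum_eq_single r]
    · simp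
    · intro b hb
      simp [hb]

def TY (A : Fin n → Fin n → Bool) (τ : Fin n → Fin n → Fin n → Fin n)
    (ys : List (Fin n)) (q : Fin n) : ℕ :=
  ∑ r, if r ≠ q then GY A τ ys q r else 0

theorem TY_cons (h : Good A d τ) (y : Fin n) (ys : List (Fin n)) (q : Fin n) :
    TY A τ (y :: ys) q = if A q y = true then TY A τ ys y else 0 := by
  unfold TY
  have e : ∀ r : Fin n, (if r ≠ q then GY A τ (y :: ys) q r else 0)
      = ∑ r', if (r ≠ q ∧ A r r' = true) then
          (if τ q r' r = y then GY A τ ys y r' else 0) else 0 := by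
    intro r
    by_cases hq : r = q
    · simp [hq]
    · simp only [GY, ne_eq, hq, not_false_eq_true, if_true, true_and]
      refine Finset.sum_congr rfl fun r' _ => ?_
      by_cases hA : A r r' = true
      · simp [hA]
      · simp [hA]
  simp_rw [e]
  rw [Finset.sum_comm]
  have e2 : ∀ r' : Fin n, (∑ r, if (r ≠ q ∧ A r r' = true) then
          (if τ q r' r = y then GY A τ ys y r' else 0) else 0)
        = if A q y = true then (if r' ≠ y then GY A τ ys y r' else 0) else 0 := by
    intro r'
    rw [exchange h q r' (fun z => if z = y then GY A τ ys y r' else 0)]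
    rw [Fintype.sum_eq_single y]
    · by_cases hA : A q y = true
      · by_cases hr : y = r'
        · simp [hr]
        · have : r' ≠ y := fun e => hr e.symm
          simp [hA, hr, this]
      · simp [hA]
    · intro z hz
      simp [hz]
  simp_rw [e2]
  by_cases hA : A q y = true
  · simp [hA]
  · simp [hA]

theorem TY_sum (h : Good A d τ) (hn : 2 ≤ n) (ys : List (Fin n)) :
    ((∑ q, TY A τ ys q : ℕ) : ℝ) = srw A d ys * n * (n - 1) * (d : ℝ) ^ ys.length := by
  have hd : (d : ℝ) ≠ 0 := by exact_mod_cast h.dpos.ne'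
  have hn0 : (n : ℝ) ≠ 0 := by
    have : n ≠ 0 := by omega
    exact_mod_cast this
  have hcard : ∀ q : Fin n, TY A τ [] q = n - 1 := by
    intro q
    unfold TY
    simp only [GY]
    rw [← Finset.card_filter]
    have : (univ.filter (fun r : Fin n => r ≠ q)) = univ.erase q := by
      ext r; simp
    rw [this, Finset.card_erase_of_mem (mem_univ q)]
    simp
  have hdeg : ∀ y : Fin n, ∀ c : ℕ, (∑ q : Fin n, if A q y = true then c else 0) = d * c := by
    intro y c
    rw [← Finset.sum_filter, Finset.sum_const, smul_eq_mul]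
    congr 1
    rw [← h.deg y]
    congr 1
    ext q
    simp [h.symm q y]
  have hc1 : ((n - 1 : ℕ) : ℝ) = (n : ℝ) - 1 := by
    rw [Nat.cast_sub (by omega)]; simp
  induction ys with
  | nil =>
    rw [Finset.sum_congr rfl fun q _ => hcard q]
    simp only [Finset.sum_const, card_univ, Fintype.card_fin, smul_eq_mul, srw, List.length_nil,
      pow_zero, mul_one, one_mul]
    rw [Nat.cast_mul, hc1]
  | cons y ys ih =>
    rw [Finset.sum_congr rfl fun q _ => TY_cons h y ys q, hdeg]
    cases ys with
    | nil =>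
      rw [hcard]
      simp only [srw, List.length_cons, List.length_nil, zero_add, pow_one]
      rw [Nat.cast_mul, hc1]
      field_simp
    | cons y' ys =>
      rw [TY_cons h]
      rw [Finset.sum_congr rfl fun q _ => TY_cons h y' ys q, hdeg] at ih
      by_cases hA : A y y' = true
      · rw [if_pos hA]
        rw [Nat.cast_mul] at ih ⊢
        rw [ih]
        simp only [srw, hA, if_true, List.length_cons]
        field_simp
        try ring
      · rw [if_neg hA]
        simp [srw, hA]

theorem law_second (h : Good A d τ) (hn : 2 ≤ n) (T : ℕ) (y : Fin T → Fin n) :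
    ∑ x : Fin T → Fin n, law A d τ (List.ofFn fun i => (x i, y i)) = srw A d (List.ofFn y) := by
  have hd : (d : ℝ) ≠ 0 := by exact_mod_cast h.dpos.ne'
  have h2 : (2 : ℝ) ≤ n := by exact_mod_cast hn
  unfold law
  simp only [List.length_ofFn]
  rw [← Finset.sum_div, ← Nat.cast_sum]
  have e : ∑ x : Fin T → Fin n, S0 A τ (List.ofFn fun i => (x i, y i))
      = ∑ q, TY A τ (List.ofFn y) q := by
    unfold S0 TY
    rw [Finset.sum_comm]
    refine Finset.sum_congr rfl fun q _ => ?_
    rw [Finset.sum_comm]
    refine Finset.sum_congr rfl fun r _ => ?_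
    by_cases hq : r = q
    · simp [hq]
    · simp only [ne_eq, hq, not_false_eq_true, if_true]
      exact sum_second T y q r
  rw [e, TY_sum h hn]
  simp only [List.length_ofFn]
  have h1 : (n : ℝ) - 1 ≠ 0 := by linarith
  have h0 : (n : ℝ) ≠ 0 := by linarith
  field_simp

/-! ### entropy -/

theorem sum_cons_gen {α : Type} [Fintype α] {T : ℕ} (F : (Fin (T + 1) → α) → ℝ) :
    ∑ y : Fin (T + 1) → α, F y = ∑ b : α, ∑ y : Fin T → α, F (Fin.cons b y) := by
  rw [← Fintype.sum_prod_type']
  refine (Fintype.sum_equiv (Fin.consEquiv (fun _ : Fin (T + 1) => α)) _ _ ?_).symm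
  rintro ⟨b, y⟩
  rfl

theorem law_total (h : Good A d τ) (hn : 2 ≤ n) (T : ℕ) :
    ∑ w : Fin T → Fin n × Fin n, law A d τ (List.ofFn w) = 1 := by
  induction T with
  | zero => simp [law_nil hn]
  | succ T ih =>
    rw [sum_cons_gen, Finset.sum_comm]
    simp only [List.ofFn_succ, Fin.cons_zero, Fin.cons_succ]
    simp_rw [law_cons h]
    exact ih

theorem srw_nonneg (xs : List (Fin n)) : 0 ≤ srw A d xs := by
  induction xs with
  | nil => simp [srw]
  | cons x xs ih =>
    cases xs with
    | nil => simp only [srw]; positivity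
    | cons x' xs =>
      simp only [srw]
      apply mul_nonneg _ ih
      split_ifs <;> positivity

theorem srw_le (hd : 0 < d) (hdn : d ≤ n) (xs : List (Fin n)) :
    srw A d xs ≤ (1 / (d : ℝ)) ^ xs.length := by
  have hd' : (0 : ℝ) < d := by exact_mod_cast hd
  have hdn' : (d : ℝ) ≤ n := by exact_mod_cast hdn
  induction xs with
  | nil => simp [srw]
  | cons x xs ih =>
    cases xs with
    | nil =>
      simp only [srw, List.length_cons, List.length_nil, zero_add, pow_one]
      exact one_div_le_one_div_of_le hd' hdn'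
    | cons x' xs =>
      simp only [srw]
      rw [List.length_cons, pow_succ, mul_comm]
      apply mul_le_mul ih _ _ (by positivity)
      · split_ifs
        · exact le_refl _
        · positivity
      · split_ifs <;> positivity

theorem law_le (h : Good A d τ) (hn : 2 ≤ n) (hdn : d ≤ n) (T : ℕ) (w : Fin T → Fin n × Fin n) :
    law A d τ (List.ofFn w) ≤ (1 / (d : ℝ)) ^ T := by
  have h1 := law_first h hn T (fun i => (w i).1)
  have h2 : law A d τ (List.ofFn w)
      ≤ ∑ y : Fin T → Fin n, law A d τ (List.ofFn fun i => ((w i).1, y i)) := by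
    have := Finset.single_le_sum
      (f := fun y : Fin T → Fin n => law A d τ (List.ofFn fun i => ((w i).1, y i)))
      (fun y _ => law_nonneg hn _) (Finset.mem_univ (fun i => (w i).2))
    simpa using this
  rw [h1] at h2
  refine h2.trans ?_
  have := srw_le (A := A) h.dpos hdn (List.ofFn fun i => (w i).1)
  simpa using this

theorem law_ge (hn : 2 ≤ n) (hd : 0 < d) (T : ℕ) (w : Fin T → Fin n × Fin n)
    (hw : law A d τ (List.ofFn w) ≠ 0) :
    1 / ((n : ℝ) * (n - 1) * (d : ℝ) ^ T) ≤ law A d τ (List.ofFn w) := by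
  have h2 : (2 : ℝ) ≤ n := by exact_mod_cast hn
  have hd' : (0 : ℝ) < d := by exact_mod_cast hd
  have h0 : S0 A τ (List.ofFn w) ≠ 0 := by
    intro e
    apply hw
    unfold law
    rw [e]; simp
  have h1 : (1 : ℝ) ≤ S0 A τ (List.ofFn w) := by
    exact_mod_cast Nat.one_le_iff_ne_zero.2 h0
  unfold law
  rw [List.length_ofFn]
  have : (0 : ℝ) < n * (n - 1) * (d : ℝ) ^ T := by
    have : (0 : ℝ) < n * (n - 1) := by nlinarith
    positivity
  exact (div_le_div_iff_of_pos_right this).2 h1

theorem entropy_bounds (h : Good A d τ) (hn : 2 ≤ n) (hdn : d ≤ n) (T : ℕ) :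
    T * Real.log d ≤ (∑ w : Fin T → Fin n × Fin n, Real.negMulLog (law A d τ (List.ofFn w))) ∧
    (∑ w : Fin T → Fin n × Fin n, Real.negMulLog (law A d τ (List.ofFn w)))
      ≤ Real.log ((n : ℝ) * (n - 1)) + T * Real.log d := by
  have h2 : (2 : ℝ) ≤ n := by exact_mod_cast hn
  have hd' : (0 : ℝ) < d := by exact_mod_cast h.dpos
  have hnn : (0 : ℝ) < n * (n - 1) := by nlinarith
  have htot := law_total h hn T
  constructor
  · calc T * Real.log d
        = ∑ w : Fin T → Fin n × Fin n, law A d τ (List.ofFn w) * (T * Real.log d) := by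
          rw [← Finset.sum_mul, htot, one_mul]
      _ ≤ _ := by
          refine Finset.sum_le_sum fun w _ => ?_
          unfold Real.negMulLog
          by_cases hw : law A d τ (List.ofFn w) = 0
          · simp [hw]
          · have hp : 0 < law A d τ (List.ofFn w) :=
              lt_of_le_of_ne (law_nonneg hn _) (Ne.symm hw)
            have hl : Real.log (law A d τ (List.ofFn w)) ≤ -(T * Real.log d) := by
              have := Real.log_le_log hp (law_le h hn hdn T w)
              rw [Real.log_pow, one_div, Real.log_inv] at this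
              linarith
            nlinarith
  · calc _ ≤ ∑ w : Fin T → Fin n × Fin n, law A d τ (List.ofFn w) *
          (Real.log ((n : ℝ) * (n - 1)) + T * Real.log d) := by
          refine Finset.sum_le_sum fun w _ => ?_
          unfold Real.negMulLog
          by_cases hw : law A d τ (List.ofFn w) = 0
          · simp [hw]
          · have hp : 0 < law A d τ (List.ofFn w) :=
              lt_of_le_of_ne (law_nonneg hn _) (Ne.symm hw)
            have hl : -(Real.log ((n : ℝ) * (n - 1)) + T * Real.log d)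
                ≤ Real.log (law A d τ (List.ofFn w)) := by
              have := Real.log_le_log (by positivity) (law_ge hn h.dpos T w hw)
              rw [one_div, Real.log_inv, Real.log_mul hnn.ne' (by positivity), Real.log_pow] at this
              linarith
            nlinarith
      _ = _ := by rw [← Finset.sum_mul, htot, one_mul]

theorem entropy_tendsto (h : Good A d τ) (hn : 2 ≤ n) (hdn : d ≤ n) :
    Tendsto (fun T : ℕ =>
      (∑ w : Fin T → Fin n × Fin n, Real.negMulLog (law A d τ (List.ofFn w))) / T) atTop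
      (𝓝 (Real.log d)) := by
  have ht : Tendsto (fun T : ℕ => Real.log ((n : ℝ) * (n - 1)) / T + Real.log d) atTop
      (𝓝 (Real.log d)) := by
    have := (tendsto_const_div_atTop_nhds_zero_nat (Real.log ((n : ℝ) * (n - 1)))).add_const
      (Real.log d)
    simpa using this
  refine tendsto_of_tendsto_of_tendsto_of_le_of_le' tendsto_const_nhds ht ?_ ?_
  · filter_upwards [eventually_gt_atTop 0] with T hT
    have hT' : (0 : ℝ) < T := by exact_mod_cast hT
    rw [le_div_iff₀ hT']
    have := (entropy_bounds h hn hdn T).1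
    linarith
  · filter_upwards [eventually_gt_atTop 0] with T hT
    have hT' : (0 : ℝ) < T := by exact_mod_cast hT
    rw [div_le_iff₀ hT', add_mul, div_mul_cancel₀ _ hT'.ne']
    have := (entropy_bounds h hn hdn T).2
    linarith

theorem good_works (h : Good A d τ) (hn : 2 ≤ n) (hdn : d ≤ n) :
    MinEntropyAvoidance A d (law A d τ) where
  nonneg := law_nonneg hn
  total := law_nil hn
  consistent := law_snoc h
  stationary := law_cons h
  first := law_first h hn
  second := law_second h hn
  avoid := law_avoid h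
  entropy := entropy_tendsto h hn hdn

/-! ### the data -/

theorem derange (P : Fin n → Prop) [DecidablePred P] (hc : 2 ≤ Fintype.card {v // P v}) :
    ∃ σ : Equiv.Perm (Fin n), (∀ v, P (σ v) ↔ P v) ∧ ∀ v, P v → σ v ≠ v := by
  obtain ⟨m, hm⟩ : ∃ m, Fintype.card {v // P v} = m + 2 := ⟨_, (Nat.sub_add_cancel hc).symm⟩
  let e : {v // P v} ≃ Fin (m + 2) := Fintype.equivFinOfCardEq hm
  let ρ : Equiv.Perm {v // P v} := (e.trans (finRotate (m + 2))).trans e.symm
  refine ⟨Equiv.Perm.ofSubtype ρ, ?_, ?_⟩
  · intro v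
    by_cases hv : P v
    · rw [Equiv.Perm.ofSubtype_apply_of_mem ρ hv]
      exact ⟨fun _ => hv, fun _ => (ρ ⟨v, hv⟩).2⟩
    · rw [Equiv.Perm.ofSubtype_apply_of_not_mem ρ hv]
  · intro v hv he
    rw [Equiv.Perm.ofSubtype_apply_of_mem ρ hv] at he
    have h1 : ρ ⟨v, hv⟩ = ⟨v, hv⟩ := Subtype.ext he
    have h2 : finRotate (m + 2) (e ⟨v, hv⟩) = e ⟨v, hv⟩ := by
      have := congrArg e h1
      simpa [ρ] using this
    rw [finRotate_succ_apply] at h2
    simp at h2

theorem good_complete (hn : 4 ≤ n) :
    ∃ τ : Fin n → Fin n → Fin n → Fin n, Good (fun a b => decide (a ≠ b)) (n - 1) τ := by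
  have key : ∀ q r' : Fin n, ∃ σ : Equiv.Perm (Fin n),
      (∀ v, (σ v ≠ q ∧ σ v ≠ r') ↔ (v ≠ q ∧ v ≠ r')) ∧ ∀ v, (v ≠ q ∧ v ≠ r') → σ v ≠ v := by
    intro q r'
    apply derange (fun v => v ≠ q ∧ v ≠ r')
    rw [Fintype.card_subtype]
    have : (univ.filter (fun v : Fin n => v ≠ q ∧ v ≠ r')) = univ \ {q, r'} := by
      ext v; simp
    rw [this, Finset.card_sdiff_of_subset (Finset.subset_univ _)]
    have h1 : ({q, r'} : Finset (Fin n)).card ≤ 2 := Finset.card_le_two
    simp only [card_univ, Fintype.card_fin]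
    omega
  choose σ hσ hσ' using key
  refine ⟨fun q r' r => σ q r' r, ?_, by omega, ?_, ?_, ?_, ?_⟩
  · intro a b
    exact decide_eq_decide.2 ne_comm
  · intro a
    have : (univ.filter (fun b : Fin n => decide (a ≠ b) = true)) = univ.erase a := by
      ext b
      simp only [mem_filter, mem_univ, true_and, decide_eq_true_eq, mem_erase, and_true]
      exact ne_comm
    rw [this, Finset.card_erase_of_mem (mem_univ a)]
    simp
  · intro q r' r h1 h2
    have h2' : r ≠ r' := by simpa using h2
    have h3 := (hσ q r' r).2 ⟨h1, h2'⟩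
    exact ⟨h3.2, decide_eq_true (fun e => h3.1 e.symm), hσ' q r' r ⟨h1, h2'⟩⟩
  · intro q r' r s _ _ _ _ e
    exact (σ q r').injective e
  · intro q r' y h1 h2
    have h2' : y ≠ q := by
      have : q ≠ y := by simpa using h2
      exact fun e => this e.symm
    have h3 := (hσ q r' ((σ q r').symm y)).1 (by simpa using ⟨h2', h1⟩)
    exact ⟨(σ q r').symm y, h3.1, by simpa using h3.2, by simp⟩

theorem good_loops (hn : 3 ≤ n) :
    ∃ τ : Fin n → Fin n → Fin n → Fin n, Good (fun _ _ => true) n τ := by
  have : NeZero n := ⟨by omega⟩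
  have key : ∀ q r' : Fin n, ∃ σ : Equiv.Perm (Fin n),
      σ q = r' ∧ ∀ v, v ≠ q → σ v ≠ v := by
    intro q r'
    by_cases hq : q = r'
    · subst hq
      obtain ⟨σ, h1, h2⟩ := derange (fun v : Fin n => v ≠ q) (by
        rw [Fintype.card_subtype]
        have : (univ.filter (fun v : Fin n => v ≠ q)) = univ.erase q := by
          ext v; simp
        rw [this, Finset.card_erase_of_mem (mem_univ q)]
        simp only [card_univ, Fintype.card_fin]
        omega)
      refine ⟨σ, ?_, h2⟩
      have := (h1 q).not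
      simpa using this
    · refine ⟨Equiv.addRight (r' - q), ?_, ?_⟩
      · simp
      · intro v _ e
        simp only [Equiv.coe_addRight, add_eq_left, sub_eq_zero] at e
        exact hq e.symm
  choose σ hσ hσ' using key
  refine ⟨fun q r' r => σ q r' r, fun _ _ => rfl, by omega, ?_, ?_, ?_, ?_⟩
  · intro a
    simp
  · intro q r' r h1 _
    refine ⟨?_, rfl, hσ' q r' r h1⟩
    intro e
    exact h1 ((σ q r').injective (e.trans (hσ q r').symm))
  · intro q r' r s _ _ _ _ e
    exact (σ q r').injective e
  · intro q r' y h1 _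
    refine ⟨(σ q r').symm y, ?_, rfl, by simp⟩
    intro e
    exact h1 (((Equiv.symm_apply_eq _).1 e).trans (hσ q r'))

/-! ### small cases: no avoidance coupling at all -/

theorem Avoidance.exists_y {law : List (Fin n × Fin n) → ℝ} (h : Avoidance A d law) (T : ℕ)
    (x : Fin T → Fin n) (hx : srw A d (List.ofFn x) ≠ 0) :
    ∃ y : Fin T → Fin n, law (List.ofFn fun i => (x i, y i)) ≠ 0 := by
  by_contra hc
  push Not at hc
  apply hx
  rw [← h.first T x]
  exact Finset.sum_eq_zero fun y _ => hc y

theorem Avoidance.srw_y_ne {law : List (Fin n × Fin n) → ℝ} (h : Avoidance A d law) (T : ℕ)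
    (x y : Fin T → Fin n) (hl : law (List.ofFn fun i => (x i, y i)) ≠ 0) :
    srw A d (List.ofFn y) ≠ 0 := by
  intro e
  apply hl
  rw [← h.second T y] at e
  exact (Finset.sum_eq_zero_iff_of_nonneg (fun x _ => h.nonneg _)).1 e x (Finset.mem_univ x)

theorem no_zero {A : Fin 0 → Fin 0 → Bool} {law : List (Fin 0 × Fin 0) → ℝ}
    (h : Avoidance A d law) : False := by
  have h1 := h.consistent []
  rw [h.total] at h1
  simp at h1

theorem no_one {A : Fin 1 → Fin 1 → Bool} {law : List (Fin 1 × Fin 1) → ℝ}
    (h : Avoidance A d law) : False := by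
  obtain ⟨y, hy⟩ := h.exists_y 1 (fun _ => 0) (by simp [srw])
  have h1 := (h.avoid _ hy).1 (0, y 0) (by simp)
  exact h1 (Subsingleton.elim _ _)

theorem no_two {A : Fin 2 → Fin 2 → Bool} {law : List (Fin 2 × Fin 2) → ℝ}
    (hA : A 0 1 = true) (hd : d ≠ 0) (h : Avoidance A d law) : False := by
  obtain ⟨y, hy⟩ := h.exists_y 2 ![0, 1] (by simp [srw, List.ofFn_succ, hA, hd])
  have h1 := h.avoid _ hy
  simp [List.ofFn_succ] at h1
  obtain ⟨h1, h2⟩ := h1
  have h3 := h1.1
  revert h3 h2
  generalize y 0 = a
  revert a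
  decide

theorem no_three {law : List (Fin 3 × Fin 3) → ℝ}
    (h : Avoidance (fun a b : Fin 3 => decide (a ≠ b)) 2 law) : False := by
  obtain ⟨y, hy⟩ := h.exists_y 3 ![0, 1, 0] (by simp [srw, List.ofFn_succ])
  have h1 := h.avoid _ hy
  have h2 := h.srw_y_ne 3 _ _ hy
  simp [List.ofFn_succ] at h1
  simp [List.ofFn_succ, srw] at h2
  obtain ⟨⟨a1, a2, -⟩, a3, a4⟩ := h1
  obtain ⟨-, b2⟩ := h2
  revert a1 a2 a3 a4 b2
  generalize y 0 = a
  generalize y 1 = b
  revert a b
  decide

end

/-- **Two walkers.** On the complete graph with loops (`n` vertices, degree `n`) and on the complete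
graph without loops (degree `n - 1`), for every `n`: if there is an avoidance coupling of two
walkers, then there is a stationary one whose entropy rate is that of a single walk. Moreover
such couplings exist exactly for `n ≥ 3`, respectively `n ≥ 4`. -/
theorem result (n : ℕ) :
    ((∃ law, Avoidance (fun _ _ : Fin n => true) n law) →
      ∃ law, MinEntropyAvoidance (fun _ _ : Fin n => true) n law) ∧
    ((∃ law, Avoidance (fun a b : Fin n => decide (a ≠ b)) (n - 1) law) →
      ∃ law, MinEntropyAvoidance (fun a b : Fin n => decide (a ≠ b)) (n - 1) law) ∧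
    ((∃ law, MinEntropyAvoidance (fun _ _ : Fin n => true) n law) ↔ 3 ≤ n) ∧
    ((∃ law, MinEntropyAvoidance (fun a b : Fin n => decide (a ≠ b)) (n - 1) law) ↔ 4 ≤ n) := by
  have h1 : 3 ≤ n → ∃ law, MinEntropyAvoidance (fun _ _ : Fin n => true) n law := by
    intro hn
    obtain ⟨τ, hτ⟩ := good_loops hn
    exact ⟨_, good_works hτ (by omega) le_rfl⟩
  have h2 : 4 ≤ n →
      ∃ law, MinEntropyAvoidance (fun a b : Fin n => decide (a ≠ b)) (n - 1) law := by
    intro hn
    obtain ⟨τ, hτ⟩ := good_complete hn
    exact ⟨_, good_works hτ (by omega) (by omega)⟩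
  have h3 : (∃ law, Avoidance (fun _ _ : Fin n => true) n law) → 3 ≤ n := by
    rintro ⟨law, h⟩
    by_contra hn
    have : n = 0 ∨ n = 1 ∨ n = 2 := by omega
    rcases this with rfl | rfl | rfl
    · exact no_zero h
    · exact no_one h
    · exact no_two rfl (by norm_num) h
  have h4 : (∃ law, Avoidance (fun a b : Fin n => decide (a ≠ b)) (n - 1) law) → 4 ≤ n := by
    rintro ⟨law, h⟩
    by_contra hn
    have : n = 0 ∨ n = 1 ∨ n = 2 ∨ n = 3 := by omega
    rcases this with rfl | rfl | rfl | rfl
    · exact no_zero h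
    · exact no_one h
    · exact no_two (by decide) (by norm_num) h
    · exact no_three h
  have h5 : ∀ {A : Fin n → Fin n → Bool} {d : ℕ}, (∃ law, MinEntropyAvoidance A d law) →
      ∃ law, Avoidance A d law := by
    rintro A d ⟨law, h⟩
    exact ⟨law, h.nonneg, h.total, h.consistent, h.first, h.second, h.avoid⟩
  exact ⟨fun h => h1 (h3 h), fun h => h2 (h4 h), ⟨fun h => h3 (h5 h), h1⟩,
    ⟨fun h => h4 (h5 h), h2⟩⟩

end Pool.Agent.Results.MP_af18c6_pr.TwoWalkers
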